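import Mathlib
import Pool.Agent.MT136.Defs
import Pool.Agent.MT136.Final

/-!
# The rank part of the Mazur-Tate conjecture fails for `y² = x³ + x² + 16x + 16`
-/

set_option autoImplicit false

namespace Pool.Agent.Results.MP_d314fd_nt.NotInSquare

open Pool.Agent.MT136 CongruenceSubgroup

/-- The equation `y² = x³ + x² + 16x + 16` is globally minimal and defines an elliptic curve of
rank at least `1`. For the newform `f` of level `136` attached to this curve the rank part of the
Mazur-Tate conjecture fails: all Mazur-Tate elements have coefficients in `ℤ`, and for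
`S = 17ᵏ`, `k ≥ 1`, where `sp(S) = 1`, the Mazur-Tate element `θ_S` does not lie in the square of
the augmentation ideal of `ℤ[G_S]`. -/
theorem result : IsGlobalMinimal E136 ∧
    (1 : Cardinal) ≤ Module.rank ℤ (E136.map (Int.castRingHom ℚ)).toAffine.Point ∧
    ∀ f : CuspForm (Gamma0 136) 2, IsNewformOf E136 136 f →
      ¬ RankPart E136 f ∧ HasCoeffsIn E136 f ⊥ ∧
      ∀ k : ℕ, 0 < k → sp E136 (17 ^ k) = 1 ∧
        ∃ θ : MonoidAlgebra (⊥ : Subring ℚ) (ZMod (17 ^ k))ˣ,
          IsTheta E136 f ⊥ (17 ^ k) θ ∧ θ ∉ augIdeal ⊥ (17 ^ k) ^ 2 :=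
  ⟨minimal136, rank_pos, fun f hf => ⟨not_rankPart f hf, (not_mem_all f hf).1, fun k hk =>
    ⟨sp17pow k hk, (not_mem_all f hf).2 k hk⟩⟩⟩

end Pool.Agent.Results.MP_d314fd_nt.NotInSquare
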